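import Pool.Agent.U28.LV.Defs

/-!
# Crossings of the edges of a line
-/

set_option autoImplicit false

namespace Pool.Agent.U28.LV

/-- The number of changes in the sequence `a :: l`. -/
def chg : Bool → List Bool → ℕ
  | _, [] => 0
  | a, b :: l => (if a = b then 0 else 1) + chg b l

theorem chg_cons_le (a b : Bool) (l : List Bool) :
    chg a l ≤ (if a = b then 0 else 1) + chg b l := by
  cases l with
  | nil => simp [chg]
  | cons c l =>
    simp only [chg]
    cases a <;> cases b <;> cases c <;> simp <;> omega

/-- The number of changes is monotone with respect to subsequences. -/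
theorem chg_sublist {l l' : List Bool} (h : l.Sublist l') : ∀ a : Bool, chg a l ≤ chg a l' := by
  induction h with
  | slnil => intro a; exact le_rfl
  | @cons l₁ l₂ b _ ih =>
    intro a
    have h1 := chg_cons_le a b l₂
    have h2 := ih a
    simp only [chg]
    omega
  | @cons_cons l₁ l₂ b _ ih =>
    intro a
    have h2 := ih b
    simp only [chg]
    omega

/-- The travel time for symmetric weights. -/
def tr (W : ℕ → ℕ) (u v : ℕ) : ℕ :=
  if u ≤ v then ∑ e ∈ Finset.Ico u v, W e else ∑ e ∈ Finset.Ico v u, W e

theorem tr_eq (W : ℕ → ℕ) {m u v : ℕ} (hu : u ≤ m) (hv : v ≤ m) :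
    tr W u v = ∑ e ∈ Finset.range m, W e * (if decide (e < u) = decide (e < v) then 0 else 1) := by
  have key : ∀ a b : ℕ, a ≤ b → b ≤ m → ∑ e ∈ Finset.Ico a b, W e =
      ∑ e ∈ Finset.range m, W e * (if decide (e < a) = decide (e < b) then 0 else 1) := by
    intro a b hab hb
    have h1 : Finset.Ico a b = (Finset.range m).filter fun e => a ≤ e ∧ e < b := by
      ext e
      simp only [Finset.mem_Ico, Finset.mem_filter, Finset.mem_range]
      omega
    rw [h1, Finset.sum_filter]
    refine Finset.sum_congr rfl fun e _ => ?_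
    by_cases h2 : a ≤ e ∧ e < b
    · rw [if_pos h2, if_neg, mul_one]
      rw [decide_eq_decide]
      omega
    · rw [if_neg h2, if_pos, mul_zero]
      rw [decide_eq_decide]
      omega
  unfold tr
  split_ifs with h
  · exact key u v h hv
  · rw [key v u (by omega) hu]
    refine Finset.sum_congr rfl fun e _ => ?_
    congr 1
    simp only [eq_comm]

theorem tr_add {W : ℕ → ℕ} {u v w : ℕ} (h1 : u ≤ v) (h2 : v ≤ w) :
    tr W u w = tr W u v + tr W v w := by
  unfold tr
  rw [if_pos (h1.trans h2), if_pos h1, if_pos h2, Finset.sum_Ico_consecutive _ h1 h2]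

theorem tr_comm (W : ℕ → ℕ) (u v : ℕ) : tr W u v = tr W v u := by
  unfold tr
  rcases lt_trichotomy u v with h | h | h
  · rw [if_pos h.le, if_neg (by omega)]
  · subst h; rfl
  · rw [if_neg (by omega), if_pos h.le]

theorem tr_self (W : ℕ → ℕ) (u : ℕ) : tr W u u = 0 := by
  unfold tr
  simp

/-- The length of the route `u, l` and back to `0`. -/
def tour (W : ℕ → ℕ) : ℕ → List ℕ → ℕ
  | u, [] => tr W u 0
  | u, v :: l => tr W u v + tour W v l

theorem tour_eq (W : ℕ → ℕ) {m : ℕ} : ∀ (l : List ℕ) (u : ℕ), u ≤ m → (∀ v ∈ l, v ≤ m) →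
    tour W u l = ∑ e ∈ Finset.range m,
      W e * chg (decide (e < u)) ((l ++ [0]).map fun v => decide (e < v)) := by
  intro l
  induction l with
  | nil =>
    intro u hu _
    rw [tour, tr_eq W hu (Nat.zero_le m)]
    refine Finset.sum_congr rfl fun e _ => ?_
    simp [chg]
  | cons v l ih =>
    intro u hu hl
    have hv : v ≤ m := hl v (by simp)
    rw [tour, tr_eq W hu hv, ih v hv (fun w hw => hl w (by simp [hw])), ← Finset.sum_add_distrib]
    refine Finset.sum_congr rfl fun e _ => ?_
    rw [List.cons_append, List.map_cons, chg, mul_add]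

theorem tour_ge (W : ℕ → ℕ) {m : ℕ} (l : List ℕ) (u : ℕ) (hu : u ≤ m) (hl : ∀ v ∈ l, v ≤ m) :
    tr W u 0 ≤ tour W u l := by
  rw [tour_eq W l u hu hl, tr_eq W hu (Nat.zero_le m)]
  refine Finset.sum_le_sum fun e _ => Nat.mul_le_mul_left _ ?_
  have h : ([0].map fun v => decide (e < v)).Sublist ((l ++ [0]).map fun v => decide (e < v)) := by
    rw [List.map_append]
    exact List.sublist_append_right _ _
  have h2 := chg_sublist h (decide (e < u))
  simpa [chg] using h2

/-- Times and travel: a lower bound for the completion time. -/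
theorem fold_ge {I : Inst} {W : ℕ → ℕ} (hI : ∀ u v, travel I u v = tr W u v) :
    ∀ (l : List ℕ) (s : ℕ × ℕ),
      s.2 + (l.map (handling I)).sum + tour W s.1 l ≤
        (l.foldl (step I) s).2 + travel I (l.foldl (step I) s).1 0 := by
  intro l
  induction l with
  | nil =>
    intro s
    simp [tour, hI]
  | cons v l ih =>
    intro s
    have h := ih (step I s v)
    simp only [List.foldl_cons, List.map_cons, List.sum_cons, tour]
    have h2 : s.2 + tr W s.1 v + handling I v ≤ (step I s v).2 := by
      unfold step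
      simp only [hI]
      have := le_max_left (s.2 + tr W s.1 v) (release I v)
      omega
    have h3 : (step I s v).1 = v := rfl
    rw [h3] at h
    omega

theorem fold_ge' {I : Inst} {W : ℕ → ℕ} (hI : ∀ u v, travel I u v = tr W u v)
    (l₁ l₂ : List ℕ) (v : ℕ) (s : ℕ × ℕ) :
    release I v + handling I v + (l₂.map (handling I)).sum + tour W v l₂ ≤
      ((l₁ ++ v :: l₂).foldl (step I) s).2 +
        travel I ((l₁ ++ v :: l₂).foldl (step I) s).1 0 := by
  rw [List.foldl_append, List.foldl_cons]
  have h := fold_ge hI l₂ (step I (l₁.foldl (step I) s) v)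
  refine le_trans ?_ h
  have h2 : release I v + handling I v ≤ (step I (l₁.foldl (step I) s) v).2 := by
    unfold step
    have := le_max_right ((l₁.foldl (step I) s).2 + travel I (l₁.foldl (step I) s).1 v)
      (release I v)
    simp only
    omega
  have h3 : (step I (l₁.foldl (step I) s) v).1 = v := rfl
  rw [h3]
  omega

end Pool.Agent.U28.LV
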