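import Pool.Agent.H671R2.SubsetSum
import Pool.Agent.H673R2.HardOn

/-!
# Single-vehicle scheduling on a line with release and handling times: definitions
-/

set_option autoImplicit false

namespace Pool.Agent.U28.LV

/-- An instance `(J, E, s, K)`: `J` is the list of the pairs (release time, handling time) of the jobs
at the vertices `0, 1, …` in the order along the line; `E` is the list of the pairs (travel time to
the right, travel time to the left) of the edges `{0, 1}, {1, 2}, …` in the order along the line; `s`
is the start vertex and `K` the bound on the completion time. -/
abbrev Inst := List (ℕ × ℕ) × List (ℕ × ℕ) × ℕ × ℕ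

/-- The release time of the job at the vertex `v`. -/
def release (I : Inst) (v : ℕ) : ℕ := (I.1.getD v (0, 0)).1

/-- The handling time of the job at the vertex `v`. -/
def handling (I : Inst) (v : ℕ) : ℕ := (I.1.getD v (0, 0)).2

/-- The travel time from the vertex `u` to the vertex `v` along the line: the sum of the travel times,
in the direction of travel, of the edges between them. -/
def travel (I : Inst) (u v : ℕ) : ℕ :=
  if u ≤ v then ∑ e ∈ Finset.Ico u v, (I.2.1.getD e (0, 0)).1
  else ∑ e ∈ Finset.Ico v u, (I.2.1.getD e (0, 0)).2

/-- The vehicle is at the vertex `s.1` at time `s.2`; it goes to the vertex `v`, waits until the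
release time of the job of `v` if it arrives earlier, and processes the job. The result is its new
vertex `v` and the time at which this processing is finished. -/
def step (I : Inst) (s : ℕ × ℕ) (v : ℕ) : ℕ × ℕ :=
  (v, max (s.2 + travel I s.1 v) (release I v) + handling I v)

/-- The completion time of the schedule `π` (the list of the vertices in the order in which their
jobs are processed): the vehicle starts at the start vertex at time `0`, processes the jobs in the
order of `π`, and returns to the start vertex. -/
def completion (I : Inst) (π : List ℕ) : ℕ :=
  (π.foldl (step I) (I.2.2.1, 0)).2 + travel I (π.foldl (step I) (I.2.2.1, 0)).1 I.2.2.1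

/-- Some schedule, that is, some permutation of all jobs, has completion time at most the bound. -/
def Schedulable (I : Inst) : Prop :=
  ∃ π : List ℕ, π.Perm (List.range I.1.length) ∧ completion I π ≤ I.2.2.2

/-- Well-formed instances with positive handling times: there is one edge less than vertices, the
start vertex is a vertex, and all handling times are positive. -/
def IsInstance (I : Inst) : Prop :=
  I.2.1.length + 1 = I.1.length ∧ I.2.2.1 < I.1.length ∧ ∀ j ∈ I.1, 0 < j.2

/-- The travel times are positive and do not depend on the direction, and the start vertex is an end
of the line. -/
def Symmetric (I : Inst) : Prop := (∀ e ∈ I.2.1, e.1 = e.2 ∧ 0 < e.1) ∧ I.2.2.1 = 0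

end Pool.Agent.U28.LV
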