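import Pool.Agent.U28.LV.Cross

/-!
# The instance made from an instance of subset sum
-/

set_option autoImplicit false

namespace Pool.Agent.U28.LV

open Pool.Agent.NPC

theorem fm_length {α : Type} (f g : ℕ → α) (n : ℕ) :
    ((List.range n).flatMap fun i => [f i, g i]).length = 2 * n := by
  simp [List.length_flatMap, mul_comm]

theorem fm_getD {α : Type} (f g : ℕ → α) (d : α) : ∀ n i : ℕ, i < n →
    ((List.range n).flatMap fun i => [f i, g i]).getD (2 * i) d = f i ∧
    ((List.range n).flatMap fun i => [f i, g i]).getD (2 * i + 1) d = g i := by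
  intro n
  induction n with
  | zero => intro i hi; omega
  | succ n ih =>
    intro i hi
    rw [List.range_succ, List.flatMap_append]
    have hl := fm_length f g n
    rcases Nat.lt_succ_iff_lt_or_eq.1 hi with h | h
    · obtain ⟨h1, h2⟩ := ih i h
      rw [List.getD_append _ _ _ _ (by omega), List.getD_append _ _ _ _ (by omega)]
      exact ⟨h1, h2⟩
    · subst h
      rw [List.getD_append_right _ _ _ _ (by omega), List.getD_append_right _ _ _ _ (by omega), hl]
      simp

/-- The length of the line. -/
def Dl (a : List ℕ) : ℕ := a.length + 1 + a.sum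

/-- The long handling time. -/
def MM (a : List ℕ) : ℕ := 2 * Dl a + 4 * a.sum + 3

/-- The release time at the end of the line. -/
def rho (a : List ℕ) (t : ℕ) : ℕ := Dl a + a.length * MM a + 1 + 4 * a.sum - 4 * t

/-- The bound. -/
def KK (a : List ℕ) (t : ℕ) : ℕ := 2 * Dl a + a.length * MM a + 2 + 4 * a.sum - 2 * t

/-- The jobs in the middle. -/
def mid (a : List ℕ) : List (ℕ × ℕ) :=
  (List.range a.length).flatMap fun i => [((i + 1) * MM a, 2 * a.getD i 0), (0, MM a)]

/-- The edges but the first. -/
def ed (a : List ℕ) : List (ℕ × ℕ) :=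
  (List.range a.length).flatMap fun i => [(a.getD i 0, a.getD i 0), (1, 1)]

/-- The instance. -/
def inst (x : List ℕ × ℕ) : Inst :=
  ((0, 1) :: (mid x.1 ++ [(rho x.1 x.2, 1)]), (1, 1) :: ed x.1, 0, KK x.1 x.2)

theorem mid_length (a : List ℕ) : (mid a).length = 2 * a.length := fm_length _ _ _

theorem ed_length (a : List ℕ) : (ed a).length = 2 * a.length := fm_length _ _ _

theorem inst_length (x : List ℕ × ℕ) : (inst x).1.length = 2 * x.1.length + 2 := by
  simp only [inst, List.length_cons, List.length_append, mid_length, List.length_nil]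

theorem job_zero (x : List ℕ × ℕ) : (inst x).1.getD 0 (0, 0) = (0, 1) := rfl

theorem job_P (x : List ℕ × ℕ) {i : ℕ} (hi : i < x.1.length) :
    (inst x).1.getD (2 * i + 1) (0, 0) = ((i + 1) * MM x.1, 2 * x.1.getD i 0) := by
  simp only [inst, List.getD_cons_succ]
  rw [List.getD_append _ _ _ _ (by rw [mid_length]; omega)]
  exact (fm_getD _ _ _ _ i hi).1

theorem job_Q (x : List ℕ × ℕ) {i : ℕ} (hi : i < x.1.length) :
    (inst x).1.getD (2 * i + 2) (0, 0) = (0, MM x.1) := by
  simp only [inst, List.getD_cons_succ]
  rw [List.getD_append _ _ _ _ (by rw [mid_length]; omega)]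
  exact (fm_getD _ _ _ _ i hi).2

theorem job_R (x : List ℕ × ℕ) :
    (inst x).1.getD (2 * x.1.length + 1) (0, 0) = (rho x.1 x.2, 1) := by
  simp only [inst, List.getD_cons_succ]
  rw [List.getD_append_right _ _ _ _ (by rw [mid_length]), mid_length]
  simp

/-- The weights of the edges. -/
def W (a : List ℕ) (e : ℕ) : ℕ := (((1, 1) :: ed a).getD e (0, 0)).1

theorem W_zero (a : List ℕ) : W a 0 = 1 := rfl

theorem W_P (a : List ℕ) {i : ℕ} (hi : i < a.length) : W a (2 * i + 1) = a.getD i 0 := by
  unfold W
  rw [List.getD_cons_succ]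
  unfold ed
  rw [(fm_getD _ _ _ _ i hi).1]

theorem W_Q (a : List ℕ) {i : ℕ} (hi : i < a.length) : W a (2 * i + 2) = 1 := by
  unfold W
  rw [List.getD_cons_succ]
  unfold ed
  rw [(fm_getD _ _ _ _ i hi).2]

theorem ed_symm (a : List ℕ) : ∀ e ∈ (1, 1) :: ed a, e.1 = e.2 := by
  intro e he
  rcases List.mem_cons.1 he with rfl | he
  · rfl
  · unfold ed at he
    rw [List.mem_flatMap] at he
    obtain ⟨i, _, he⟩ := he
    simp only [List.mem_cons, List.not_mem_nil, or_false] at he
    rcases he with rfl | rfl <;> rfl

theorem getD_symm (a : List ℕ) (e : ℕ) :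
    (((1, 1) :: ed a).getD e (0, 0)).2 = W a e := by
  unfold W
  by_cases h : e < ((1, 1) :: ed a).length
  · rw [List.getD_eq_getElem _ _ h]
    exact (ed_symm a _ (List.getElem_mem h)).symm
  · rw [List.getD_eq_default _ _ (by omega)]

theorem inst_travel (x : List ℕ × ℕ) (u v : ℕ) : travel (inst x) u v = tr (W x.1) u v := by
  unfold travel tr
  split_ifs with h
  · rfl
  · refine Finset.sum_congr rfl fun e _ => ?_
    exact getD_symm x.1 e

theorem inst_isInstance (x : List ℕ × ℕ) (hx : ∀ a ∈ x.1, 0 < a) : IsInstance (inst x) := by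
  refine ⟨?_, ?_, ?_⟩
  · rw [inst_length]
    simp only [inst, List.length_cons, ed_length]
  · rw [inst_length]
    simp only [inst]
    omega
  · intro j hj
    simp only [inst, List.mem_cons, List.mem_append, List.not_mem_nil, or_false] at hj
    rcases hj with rfl | hj | rfl
    · exact one_pos
    · unfold mid at hj
      rw [List.mem_flatMap] at hj
      obtain ⟨i, hi, hj⟩ := hj
      rw [List.mem_range] at hi
      simp only [List.mem_cons, List.not_mem_nil, or_false] at hj
      rcases hj with rfl | rfl
      · have := hx (x.1.getD i 0) (by rw [List.getD_eq_getElem _ _ hi]; exact List.getElem_mem hi)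
        simp only
        omega
      · simp only [MM]
        omega
    · exact one_pos

theorem inst_symmetric (x : List ℕ × ℕ) (hx : ∀ a ∈ x.1, 0 < a) : Symmetric (inst x) := by
  refine ⟨?_, rfl⟩
  intro e he
  refine ⟨ed_symm _ e he, ?_⟩
  rcases List.mem_cons.1 he with rfl | he
  · exact one_pos
  · unfold ed at he
    rw [List.mem_flatMap] at he
    obtain ⟨i, hi, he⟩ := he
    rw [List.mem_range] at hi
    simp only [List.mem_cons, List.not_mem_nil, or_false] at he
    rcases he with rfl | rfl
    · exact hx (x.1.getD i 0) (by rw [List.getD_eq_getElem _ _ hi]; exact List.getElem_mem hi)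
    · exact one_pos

/-! ### Sums -/

theorem sum_getD (a : List ℕ) : ∑ i ∈ Finset.range a.length, a.getD i 0 = a.sum := by
  induction a with
  | nil => rfl
  | cons b a ih =>
    rw [List.length_cons, Finset.sum_range_succ']
    simp only [List.getD_cons_succ, List.getD_cons_zero, List.sum_cons]
    rw [ih, add_comm]

/-- The positions of the vertices `2 i`. -/
theorem pos_even (a : List ℕ) : ∀ i : ℕ, i ≤ a.length →
    tr (W a) 0 (2 * i) = i + ∑ j ∈ Finset.range i, a.getD j 0 := by
  intro i
  induction i with
  | zero => intro _; simp [tr_self]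
  | succ i ih =>
    intro hi
    have h := ih (by omega)
    rw [tr_add (W := W a) (Nat.zero_le (2 * i)) (by omega : 2 * i ≤ 2 * (i + 1)), h,
      Finset.sum_range_succ]
    have h2 : tr (W a) (2 * i) (2 * (i + 1)) = W a (2 * i) + W a (2 * i + 1) := by
      unfold tr
      rw [if_pos (by omega)]
      rw [show 2 * (i + 1) = 2 * i + 1 + 1 by ring, Finset.sum_Ico_succ_top (by omega),
        Finset.sum_Ico_succ_top (by omega)]
      simp
    rw [h2, W_P a (by omega)]
    have h3 : W a (2 * i) = 1 := by
      cases i with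
      | zero => rfl
      | succ i => exact W_Q a (i := i) (by omega)
    rw [h3]
    ring

theorem W_even (a : List ℕ) {i : ℕ} (hi : i ≤ a.length) : W a (2 * i) = 1 := by
  cases i with
  | zero => rfl
  | succ i => exact W_Q a (i := i) (by omega)

theorem tr_succ (V : ℕ → ℕ) (u : ℕ) : tr V u (u + 1) = V u := by
  unfold tr
  rw [if_pos (by omega)]
  simp

theorem pos_last (a : List ℕ) : tr (W a) 0 (2 * a.length + 1) = Dl a := by
  rw [tr_add (W := W a) (Nat.zero_le (2 * a.length)) (by omega), pos_even a _ le_rfl, tr_succ,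
    W_even a le_rfl, sum_getD]
  unfold Dl
  ring

theorem sum_W (a : List ℕ) : ∑ e ∈ Finset.range (2 * a.length + 1), W a e = Dl a := by
  rw [← pos_last]
  unfold tr
  rw [if_pos (Nat.zero_le _), Finset.range_eq_Ico]

theorem sum_handling (x : List ℕ × ℕ) : ((List.range (inst x).1.length).map
    (handling (inst x))).sum = 2 + 2 * x.1.sum + x.1.length * MM x.1 := by
  have h1 : ∀ l : List (ℕ × ℕ), ((List.range l.length).map fun v => (l.getD v (0, 0)).2).sum =
      (l.map Prod.snd).sum := by
    intro l
    induction l with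
    | nil => rfl
    | cons p l ih =>
      rw [List.length_cons, List.range_succ_eq_map, List.map_cons, List.map_map, List.sum_cons,
        List.map_cons, List.sum_cons, ← ih]
      rfl
  rw [show (handling (inst x)) = fun v => ((inst x).1.getD v (0, 0)).2 from rfl, h1]
  simp only [inst, List.map_cons, List.map_append, List.sum_cons, List.sum_append, List.map_nil,
    List.sum_nil]
  have h3 : ∀ n : ℕ, (((List.range n).flatMap fun i =>
      [((i + 1) * MM x.1, 2 * x.1.getD i 0), (0, MM x.1)]).map Prod.snd).sum =
      2 * ∑ i ∈ Finset.range n, x.1.getD i 0 + n * MM x.1 := by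
    intro n
    induction n with
    | zero => simp
    | succ n ih =>
      rw [List.range_succ, List.flatMap_append, List.map_append, List.sum_append, ih,
        Finset.sum_range_succ]
      simp
      ring
  unfold mid
  rw [h3, sum_getD]
  ring

/-! ### Polynomial time -/

theorem inst_poly : Poly inst := by
  have hD : Poly (fun x : List ℕ × ℕ => Dl x.1) := by unfold Dl; fun_prop
  have hM : Poly (fun x : List ℕ × ℕ => MM x.1) := by unfold MM; fun_prop
  have hr : Poly (fun x : List ℕ × ℕ => rho x.1 x.2) := by unfold rho; fun_prop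
  have hK : Poly (fun x : List ℕ × ℕ => KK x.1 x.2) := by unfold KK; fun_prop
  have hR : Poly (fun x : List ℕ × ℕ => List.range x.1.length) :=
    (UPoly.length (Poly.fst Poly.id)).range
  have hmid : Poly (fun x : List ℕ × ℕ => mid x.1) := by
    unfold mid
    refine Poly.flatMap (l := fun x : List ℕ × ℕ => List.range x.1.length)
      (F := fun x i => [((i + 1) * MM x.1, 2 * x.1.getD i 0), (0, MM x.1)]) hR ?_
    have hM' : Poly (fun p : (List ℕ × ℕ) × ℕ => MM p.1.1) := hM.comp (Poly.fst Poly.id)
    fun_prop
  have hed : Poly (fun x : List ℕ × ℕ => ed x.1) := by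
    unfold ed
    refine Poly.flatMap (l := fun x : List ℕ × ℕ => List.range x.1.length)
      (F := fun x i => [(x.1.getD i 0, x.1.getD i 0), (1, 1)]) hR ?_
    fun_prop
  unfold inst
  fun_prop

end Pool.Agent.U28.LV
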