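import Pool.Agent.U28.LV.Inst

/-!
# From a schedule to a subset
-/

set_option autoImplicit false

namespace Pool.Agent.U28.LV

open Pool.Agent.NPC

/-- A list without repetitions, and some of its members: the sum over the list is at least the sum
over the members. -/
theorem sum_le_of_mem {β : Type} (f : ℕ → ℕ) (l : List ℕ) (F : Finset β) (g : β → ℕ)
    (hg : ∀ i ∈ F, g i ∈ l) (hinj : ∀ i ∈ F, ∀ j ∈ F, g i = g j → i = j) (hl : l.Nodup) :
    ∑ i ∈ F, f (g i) ≤ (l.map f).sum := by
  classical
  rw [← List.sum_toFinset f hl]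
  calc ∑ i ∈ F, f (g i) = ∑ v ∈ F.image g, f v := by
        rw [Finset.sum_image]
        intro i hi j hj h
        exact hinj i hi j hj h
    _ ≤ _ := by
        refine Finset.sum_le_sum_of_subset ?_
        intro v hv
        rw [Finset.mem_image] at hv
        obtain ⟨i, hi, rfl⟩ := hv
        exact List.mem_toFinset.2 (hg i hi)

theorem subset_of_schedulable (x : List ℕ × ℕ) (ht : x.2 < x.1.sum)
    (h : Schedulable (inst x)) : ∃ F : Finset ℕ, F ⊆ Finset.range x.1.length ∧
      ∑ i ∈ F, x.1.getD i 0 = x.2 := by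
  classical
  obtain ⟨π, hπ, hC⟩ := h
  obtain ⟨a, t⟩ := x
  simp only at ht ⊢
  set n := a.length with hn
  have hlen := inst_length (a, t)
  simp only at hlen
  have hKK : KK a t = 2 * Dl a + n * MM a + 2 + 4 * a.sum - 2 * t := rfl
  have hrho : rho a t = Dl a + n * MM a + 1 + 4 * a.sum - 4 * t := rfl
  have hnd : π.Nodup := hπ.nodup_iff.2 List.nodup_range
  have hmem : ∀ v, v ∈ π ↔ v < 2 * n + 2 := by
    intro v
    rw [hπ.mem_iff, List.mem_range, hlen]
  have hH : (π.map (handling (inst (a, t)))).sum = 2 + 2 * a.sum + n * MM a := by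
    rw [(hπ.map _).sum_eq, sum_handling]
  have hC' : (π.foldl (step (inst (a, t))) (0, 0)).2 +
      travel (inst (a, t)) (π.foldl (step (inst (a, t))) (0, 0)).1 0 ≤ KK a t := hC
  have hle : ∀ v ∈ π, v ≤ 2 * n + 1 := fun v hv => by
    have := (hmem v).1 hv
    omega
  have htr := inst_travel (a, t)
  simp only at htr
  -- split at `R`
  have hR : 2 * n + 1 ∈ π := (hmem _).2 (by omega)
  obtain ⟨l₁, l₂, hl⟩ := List.append_of_mem hR
  -- release at R
  have hrel : release (inst (a, t)) (2 * n + 1) = rho a t := by
    unfold release; rw [job_R (a, t)]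
  have hhR : handling (inst (a, t)) (2 * n + 1) = 1 := by
    unfold handling; rw [job_R (a, t)]
  have hhP : ∀ i < n, handling (inst (a, t)) (2 * i + 1) = 2 * a.getD i 0 := fun i hi => by
    unfold handling; rw [job_P (a, t) hi]
  have hhQ : ∀ i < n, handling (inst (a, t)) (2 * i + 2) = MM a := fun i hi => by
    unfold handling; rw [job_Q (a, t) hi]
  have hrP : ∀ i < n, release (inst (a, t)) (2 * i + 1) = (i + 1) * MM a := fun i hi => by
    unfold release; rw [job_P (a, t) hi]
  -- the set of late items
  have hl2le : ∀ v ∈ l₂, v ≤ 2 * n + 1 := fun v hv => hle v (by rw [hl]; simp [hv])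
  have hnd2 : l₂.Nodup := by
    rw [hl] at hnd
    exact (List.nodup_cons.1 (List.nodup_append.1 hnd).2.1).2
  obtain ⟨A, hA⟩ : ∃ A, A = (Finset.range n).filter fun i => 2 * i + 1 ∈ l₂ := ⟨_, rfl⟩
  obtain ⟨B, hB⟩ : ∃ B, B = (Finset.range n).filter fun i => 2 * i + 1 ∈ l₁ := ⟨_, rfl⟩
  have hAs : 2 * ∑ i ∈ A, a.getD i 0 ≤ 2 * t := by
    have h1 := fold_ge' htr l₁ l₂ (2 * n + 1) (0, 0)
    rw [← hl, hrel, hhR] at h1
    have h2 := tour_ge (W a) l₂ (2 * n + 1) le_rfl hl2le
    rw [tr_comm, pos_last] at h2
    have h3 : ∑ i ∈ A, handling (inst (a, t)) (2 * i + 1) ≤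
        (l₂.map (handling (inst (a, t)))).sum := by
      refine sum_le_of_mem _ l₂ A (fun i => 2 * i + 1) ?_ ?_ hnd2
      · intro i hi
        rw [hA, Finset.mem_filter] at hi
        exact hi.2
      · intro i _ j _ h
        have h' : 2 * i + 1 = 2 * j + 1 := h
        omega
    have h4 : ∑ i ∈ A, handling (inst (a, t)) (2 * i + 1) = 2 * ∑ i ∈ A, a.getD i 0 := by
      rw [Finset.mul_sum]
      refine Finset.sum_congr rfl fun i hi => ?_
      rw [hA, Finset.mem_filter, Finset.mem_range] at hi
      exact hhP i hi.1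
    have h5 : rho a t + 1 + 2 * ∑ i ∈ A, a.getD i 0 + Dl a ≤ KK a t := by omega
    rw [hKK, hrho] at h5
    omega
  -- crossings
  have hcr : ∀ e ∈ Finset.range (2 * n + 1), 2 * W a e +
      (if e ∈ B.image (fun i => 2 * i + 1) then 2 * W a e else 0) ≤
      W a e * chg (decide (e < 0)) ((π ++ [0]).map fun v => decide (e < v)) := by
    intro e he
    rw [Finset.mem_range] at he
    have hd0 : decide (e < 0) = false := by simp
    rw [hd0]
    split_ifs with hB'
    · rw [Finset.mem_image] at hB'
      obtain ⟨i, hi, rfl⟩ := hB'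
      rw [hB, Finset.mem_filter, Finset.mem_range] at hi
      obtain ⟨hin, hi1⟩ := hi
      obtain ⟨m₁, m₂, hm⟩ := List.append_of_mem hi1
      -- some q_j with j ≥ i is in m₁
      have hq : ∃ j, i ≤ j ∧ j < n ∧ 2 * j + 2 ∈ m₁ := by
        by_contra hcon
        push Not at hcon
        have hlp : π = m₁ ++ (2 * i + 1) :: (m₂ ++ (2 * n + 1) :: l₂) := by
          rw [hl, hm]; simp
        have h1 := fold_ge' htr m₁ (m₂ ++ (2 * n + 1) :: l₂) (2 * i + 1) (0, 0)
        rw [← hlp, hrP i hin] at h1
        have hndp : (m₂ ++ (2 * n + 1) :: l₂).Nodup := by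
          rw [hlp] at hnd
          exact (List.nodup_cons.1 (List.nodup_append.1 hnd).2.1).2
        have h3 : ∑ j ∈ Finset.Ico i n, handling (inst (a, t)) (2 * j + 2) ≤
            ((m₂ ++ (2 * n + 1) :: l₂).map (handling (inst (a, t)))).sum := by
          refine sum_le_of_mem _ _ _ (fun j => 2 * j + 2) ?_ ?_ hndp
          · intro j hj
            rw [Finset.mem_Ico] at hj
            have h5 : 2 * j + 2 ∈ π := (hmem _).2 (by omega)
            rw [hlp, List.mem_append, List.mem_cons] at h5
            rcases h5 with h5 | h5 | h5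
            · exact absurd h5 (hcon j hj.1 hj.2)
            · omega
            · exact h5
          · intro j _ k _ h
            have h' : 2 * j + 2 = 2 * k + 2 := h
            omega
        have h4 : ∑ j ∈ Finset.Ico i n, handling (inst (a, t)) (2 * j + 2) = (n - i) * MM a := by
          rw [Finset.sum_congr rfl (g := fun _ => MM a) fun j hj => by
            rw [Finset.mem_Ico] at hj
            exact hhQ j hj.2]
          rw [Finset.sum_const, Nat.card_Ico, smul_eq_mul]
        have h6 : (i + 1) * MM a + (n - i) * MM a ≤ KK a t := by omega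
        have h7 : (i + 1) * MM a + (n - i) * MM a = (n + 1) * MM a := by
          rw [← add_mul]
          congr 1
          omega
        rw [h7, add_mul, one_mul] at h6
        rw [hKK] at h6
        have h8 : MM a = 2 * Dl a + 4 * a.sum + 3 := rfl
        omega
      obtain ⟨j, hij, hjn, hj⟩ := hq
      have hsub : [true, false, true, false].Sublist
          ((π ++ [0]).map fun v => decide (2 * i + 1 < v)) := by
        have h1 : [2 * j + 2, 2 * i + 1, 2 * n + 1, 0].Sublist (π ++ [0]) := by
          rw [hl, hm]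
          have e1 : [2 * j + 2, 2 * i + 1, 2 * n + 1, 0] =
              [2 * j + 2] ++ ([2 * i + 1] ++ ([2 * n + 1] ++ [0])) := rfl
          have e2 : m₁ ++ (2 * i + 1) :: m₂ ++ (2 * n + 1) :: l₂ ++ [0] =
              m₁ ++ (([2 * i + 1] ++ m₂) ++ (([2 * n + 1] ++ l₂) ++ [0])) := by simp
          rw [e1, e2]
          refine List.Sublist.append (List.singleton_sublist.2 hj)
            (List.Sublist.append (List.sublist_append_left _ _)
              (List.Sublist.append (List.sublist_append_left _ _) (List.Sublist.refl _)))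
        have h2 := h1.map fun v => decide (2 * i + 1 < v)
        have h3 : ([2 * j + 2, 2 * i + 1, 2 * n + 1, 0].map fun v => decide (2 * i + 1 < v)) =
            [true, false, true, false] := by
          simp only [List.map_cons, List.map_nil, List.cons.injEq, decide_eq_true_eq,
            decide_eq_false_iff_not, and_true]
          refine ⟨by omega, by omega, by omega, by omega⟩
        rwa [h3] at h2
      have h4 := chg_sublist hsub false
      have h5 : chg false [true, false, true, false] = 4 := rfl
      rw [h5] at h4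
      calc 2 * W a (2 * i + 1) + 2 * W a (2 * i + 1) = W a (2 * i + 1) * 4 := by ring
        _ ≤ _ := Nat.mul_le_mul_left _ h4
    · have hsub : [true, false].Sublist ((π ++ [0]).map fun v => decide (e < v)) := by
        have h1 : [2 * n + 1, 0].Sublist (π ++ [0]) := by
          rw [show [2 * n + 1, 0] = [2 * n + 1] ++ [0] from rfl]
          exact List.Sublist.append (List.singleton_sublist.2 hR) (List.Sublist.refl _)
        have h2 := h1.map fun v => decide (e < v)
        have h3 : ([2 * n + 1, 0].map fun v => decide (e < v)) = [true, false] := by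
          simp only [List.map_cons, List.map_nil, List.cons.injEq, decide_eq_true_eq,
            decide_eq_false_iff_not, and_true]
          exact ⟨by omega, by omega⟩
        rwa [h3] at h2
      have h4 := chg_sublist hsub false
      have h5 : chg false [true, false] = 2 := rfl
      rw [h5] at h4
      calc 2 * W a e + 0 = W a e * 2 := by ring
        _ ≤ _ := Nat.mul_le_mul_left _ h4
  have hBs : 2 * ∑ i ∈ B, a.getD i 0 ≤ 2 * (a.sum - t) := by
    have h1 := fold_ge htr π (0, 0)
    rw [hH, tour_eq (W a) π 0 (Nat.zero_le (2 * n + 1)) hle] at h1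
    have h2 := Finset.sum_le_sum hcr
    rw [Finset.sum_add_distrib, ← Finset.mul_sum, sum_W, Finset.sum_ite_mem] at h2
    have h3 : ∑ i ∈ B, 2 * a.getD i 0 ≤
        ∑ e ∈ Finset.range (2 * n + 1) ∩ B.image (fun i => 2 * i + 1), 2 * W a e := by
      have h4 : B.image (fun i => 2 * i + 1) ⊆ Finset.range (2 * n + 1) := by
        intro e he
        rw [Finset.mem_image] at he
        obtain ⟨i, hi, rfl⟩ := he
        rw [hB, Finset.mem_filter, Finset.mem_range] at hi
        rw [Finset.mem_range]
        omega
      rw [Finset.inter_eq_right.2 h4, Finset.sum_image (by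
        intro i _ j _ h
        have h' : 2 * i + 1 = 2 * j + 1 := h
        omega)]
      refine Finset.sum_le_sum fun i hi => ?_
      rw [hB, Finset.mem_filter, Finset.mem_range] at hi
      rw [W_P a hi.1]
    rw [← Finset.mul_sum] at h3
    have h6 : 2 + 2 * a.sum + n * MM a + (2 * Dl a + 2 * ∑ i ∈ B, a.getD i 0) ≤ KK a t := by
      have h7 : (0 : ℕ) + (2 + 2 * a.sum + n * MM a) + ∑ e ∈ Finset.range (2 * n + 1),
        W a e * chg (decide (e < 0)) ((π ++ [0]).map fun v => decide (e < v)) ≤ KK a t :=
        h1.trans hC'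
      omega
    rw [hKK] at h6
    omega
  have hAB : Finset.range n ⊆ A ∪ B := by
    intro i hi
    rw [Finset.mem_range] at hi
    have h1 : 2 * i + 1 ∈ π := (hmem _).2 (by omega)
    rw [hl, List.mem_append, List.mem_cons] at h1
    rw [Finset.mem_union, hA, hB, Finset.mem_filter, Finset.mem_filter, Finset.mem_range]
    rcases h1 with h1 | h1 | h1
    · exact Or.inr ⟨hi, h1⟩
    · omega
    · exact Or.inl ⟨hi, h1⟩
  have hS : a.sum ≤ ∑ i ∈ A, a.getD i 0 + ∑ i ∈ B, a.getD i 0 := by
    rw [← sum_getD, ← Finset.sum_union_inter]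
    exact (Finset.sum_le_sum_of_subset hAB).trans (Nat.le_add_right _ _)
  refine ⟨A, ?_, ?_⟩
  · rw [hA]; exact Finset.filter_subset _ _
  · omega

end Pool.Agent.U28.LV
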