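import Pool.Agent.U28.LV.Up

/-!
# Single-vehicle scheduling on a line with release and handling times is NP-hard
-/

set_option autoImplicit false

namespace Pool.Agent.U28.LV

open Pool.Agent.NPC Pool.Agent.H673R2

theorem map_getD_range (a : List ℕ) : (List.range a.length).map (fun i => a.getD i 0) = a := by
  induction a with
  | nil => rfl
  | cons b a ih =>
    rw [List.length_cons, List.range_succ_eq_map, List.map_cons, List.map_map]
    simp only [List.getD_cons_zero, List.cons.injEq, true_and]
    exact ih

theorem exists_sublist (a : List ℕ) (F : Finset ℕ) (hF : F ⊆ Finset.range a.length) :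
    ∃ s : List ℕ, s.Sublist a ∧ s.sum = ∑ i ∈ F, a.getD i 0 := by
  classical
  refine ⟨((List.range a.length).filter (fun i => decide (i ∈ F))).map (fun i => a.getD i 0),
    ?_, ?_⟩
  · have h := (List.filter_sublist (l := List.range a.length)
      (p := fun i => decide (i ∈ F))).map (fun i => a.getD i 0)
    rwa [map_getD_range] at h
  · rw [← List.sum_toFinset _ (List.nodup_range.filter _)]
    refine Finset.sum_congr ?_ fun _ _ => rfl
    ext i
    simp only [List.mem_toFinset, List.mem_filter, List.mem_range, decide_eq_true_eq]
    constructor
    · exact fun h => h.2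
    · intro h
      exact ⟨Finset.mem_range.1 (hF h), h⟩

/-- NP-hardness, even for instances with positive symmetric travel times and start vertex at an end
of the line. -/
theorem hard : NPHardOn (fun I => IsInstance I ∧ Symmetric I) Schedulable := by
  refine npHardOn_of R671.SS.hardPr_SubsetSum inst_poly (fun x hx => ?_) (fun x hx => ?_)
  · exact ⟨inst_isInstance x fun a ha => (hx.1 a ha).1, inst_symmetric x fun a ha => (hx.1 a ha).1⟩
  · refine ⟨schedulable_of_sublist x hx.2, fun h => ?_⟩
    obtain ⟨F, hF, hs⟩ := subset_of_schedulable x hx.2 h
    obtain ⟨s, hs1, hs2⟩ := exists_sublist x.1 F hF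
    exact ⟨s, hs1, hs2.trans hs⟩

end Pool.Agent.U28.LV
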