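import Pool.Agent.U28.LV.Low

/-!
# From a subset to a schedule
-/

set_option autoImplicit false

namespace Pool.Agent.U28.LV

open Pool.Agent.NPC

theorem exists_mask {s a : List ℕ} (h : s.Sublist a) : ∃ χ : ℕ → Bool,
    ∑ i ∈ Finset.range a.length, (if χ i then a.getD i 0 else 0) = s.sum := by
  induction h with
  | slnil => exact ⟨fun _ => false, rfl⟩
  | @cons s a b _ ih =>
    obtain ⟨χ, hχ⟩ := ih
    refine ⟨fun i => match i with | 0 => false | i + 1 => χ i, ?_⟩
    rw [List.length_cons, Finset.sum_range_succ']
    simpa using hχ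
  | @cons_cons s a b _ ih =>
    obtain ⟨χ, hχ⟩ := ih
    refine ⟨fun i => match i with | 0 => true | i + 1 => χ i, ?_⟩
    rw [List.length_cons, Finset.sum_range_succ', List.sum_cons, ← hχ]
    simp [add_comm]

/-- The visits near the item `i` on the way out. -/
def blk (χ : ℕ → Bool) (i : ℕ) : List ℕ := if χ i then [2 * i + 2] else [2 * i + 2, 2 * i + 1]

/-- The way out. -/
def out (χ : ℕ → Bool) (n : ℕ) : List ℕ := (List.range n).flatMap (blk χ)

/-- The way back. -/
def bak (χ : ℕ → Bool) : ℕ → List ℕ
  | 0 => []
  | n + 1 => (if χ n then [2 * n + 1] else []) ++ bak χ n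

theorem out_succ (χ : ℕ → Bool) (n : ℕ) : out χ (n + 1) = out χ n ++ blk χ n := by
  unfold out
  rw [List.range_succ, List.flatMap_append]
  simp

theorem perm_aux (χ : ℕ → Bool) : ∀ n : ℕ,
    (out χ n ++ bak χ n).Perm ((List.range (2 * n)).map (· + 1)) := by
  intro n
  induction n with
  | zero => exact List.Perm.refl _
  | succ n ih =>
    have h1 : List.range (2 * (n + 1)) = List.range (2 * n) ++ [2 * n, 2 * n + 1] := by
      rw [show 2 * (n + 1) = 2 * n + 1 + 1 by ring, List.range_succ, List.range_succ,
        List.append_assoc]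
      rfl
    rw [out_succ, bak, h1, List.map_append]
    have h2 : (blk χ n ++ (if χ n then [2 * n + 1] else [])).Perm
        ([2 * n, 2 * n + 1].map (· + 1)) := by
      unfold blk
      cases χ n
      · simp only [Bool.false_eq_true, if_false, List.append_nil, List.map_cons, List.map_nil]
        exact List.Perm.swap _ _ _
      · simp only [if_true, List.map_cons, List.map_nil, List.cons_append, List.nil_append]
        exact List.Perm.swap _ _ _
    refine List.Perm.trans ?_ (ih.append h2)
    rw [List.append_assoc, List.append_assoc]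
    refine List.Perm.append_left _ ?_
    rw [← List.append_assoc]
    exact List.perm_append_comm

/-- The schedule. -/
def sched (χ : ℕ → Bool) (n : ℕ) : List ℕ := 0 :: (out χ n ++ (2 * n + 1) :: bak χ n)

theorem sched_perm (χ : ℕ → Bool) (n : ℕ) : (sched χ n).Perm (List.range (2 * n + 2)) := by
  unfold sched
  rw [List.range_succ_eq_map]
  refine List.Perm.cons _ ?_
  refine List.perm_middle.trans ?_
  rw [List.range_succ, List.map_append]
  refine ((perm_aux χ n).cons _).trans ?_
  exact (List.perm_append_comm (l₁ := [2 * n + 1])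
    (l₂ := (List.range (2 * n)).map (· + 1)))

section

variable {x : List ℕ × ℕ}

/-- The time at which the vehicle could be at the vertex `2 i` after the block `i`. -/
def TT (a : List ℕ) (χ : ℕ → Bool) (i : ℕ) : ℕ :=
  1 + tr (W a) 0 (2 * i) + i * MM a +
    ∑ j ∈ Finset.range i, (if χ j then 0 else 4 * a.getD j 0)

theorem TT_succ (a : List ℕ) (χ : ℕ → Bool) {i : ℕ} (hi : i < a.length) :
    TT a χ (i + 1) = TT a χ i + 1 + a.getD i 0 + MM a + (if χ i then 0 else 4 * a.getD i 0) := by
  unfold TT
  rw [pos_even a (i + 1) (by omega), pos_even a i (by omega), Finset.sum_range_succ,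
    Finset.sum_range_succ]
  ring

theorem tr_two (a : List ℕ) {i : ℕ} (hi : i < a.length) :
    tr (W a) (2 * i) (2 * i + 2) = 1 + a.getD i 0 := by
  rw [tr_add (W := W a) (by omega : 2 * i ≤ 2 * i + 1) (by omega), tr_succ, tr_succ,
    W_even a (by omega), W_P a hi]

theorem out_time (x : List ℕ × ℕ) (χ : ℕ → Bool) : ∀ i : ℕ, i ≤ x.1.length →
    ((0 :: out χ i).foldl (step (inst x)) (0, 0)).1 ≤ 2 * i ∧
    ((0 :: out χ i).foldl (step (inst x)) (0, 0)).2 +
      tr (W x.1) ((0 :: out χ i).foldl (step (inst x)) (0, 0)).1 (2 * i) = TT x.1 χ i ∧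
    i * MM x.1 ≤ ((0 :: out χ i).foldl (step (inst x)) (0, 0)).2 := by
  intro i
  induction i with
  | zero =>
    intro _
    have h0 : (0 :: out χ 0).foldl (step (inst x)) (0, 0) = (0, 1) := by
      simp only [out, List.range_zero, List.flatMap_nil, List.foldl_cons, List.foldl_nil, step,
        inst_travel, tr_self, release, handling, job_zero]
      rfl
    rw [h0]
    refine ⟨le_rfl, ?_, by omega⟩
    unfold TT
    simp [tr_self]
  | succ i ih =>
    intro hi
    obtain ⟨h1, h2, h3⟩ := ih (by omega)
    have hi' : i < x.1.length := by omega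
    obtain ⟨s, hs⟩ : ∃ s, s = (0 :: out χ i).foldl (step (inst x)) (0, 0) := ⟨_, rfl⟩
    rw [← hs] at h1 h2 h3
    rw [out_succ, ← List.cons_append, List.foldl_append, ← hs]
    have hQ : step (inst x) s (2 * i + 2) =
        (2 * i + 2, TT x.1 χ i + 1 + x.1.getD i 0 + MM x.1) := by
      unfold step
      have e1 : release (inst x) (2 * i + 2) = 0 := by unfold release; rw [job_Q x hi']
      have e2 : handling (inst x) (2 * i + 2) = MM x.1 := by unfold handling; rw [job_Q x hi']
      rw [inst_travel, e1, e2, tr_add (W := W x.1) h1 (by omega : 2 * i ≤ 2 * i + 2),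
        tr_two x.1 hi', Nat.max_zero]
      congr 1
      omega
    have hP : step (inst x) (2 * i + 2, TT x.1 χ i + 1 + x.1.getD i 0 + MM x.1) (2 * i + 1) =
        (2 * i + 1, TT x.1 χ i + 1 + x.1.getD i 0 + MM x.1 + 3 * x.1.getD i 0) := by
      unfold step
      have e1 : release (inst x) (2 * i + 1) = (i + 1) * MM x.1 := by
        unfold release; rw [job_P x hi']
      have e2 : handling (inst x) (2 * i + 1) = 2 * x.1.getD i 0 := by
        unfold handling; rw [job_P x hi']
      have e3 : tr (W x.1) (2 * i + 2) (2 * i + 1) = x.1.getD i 0 := by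
        rw [tr_comm, tr_succ, W_P x.1 hi']
      rw [inst_travel, e1, e2]
      simp only
      rw [e3, max_eq_left]
      · congr 1
        ring
      · rw [add_mul, one_mul]
        omega
    have hT := TT_succ x.1 χ hi'
    unfold blk
    cases hχ : χ i
    · rw [hχ] at hT
      simp only [Bool.false_eq_true, if_false, List.foldl_cons, List.foldl_nil] at hT ⊢
      rw [hQ, hP]
      refine ⟨by simp only; omega, ?_, ?_⟩
      · simp only
        rw [show 2 * (i + 1) = 2 * i + 1 + 1 by ring, tr_succ, W_P x.1 hi', hT]
        ring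
      · simp only
        rw [add_mul, one_mul]
        omega
    · rw [hχ] at hT
      simp only [if_true, List.foldl_cons, List.foldl_nil] at hT ⊢
      rw [hQ]
      refine ⟨by simp only; omega, ?_, ?_⟩
      · simp only
        rw [show 2 * (i + 1) = 2 * i + 2 by ring, tr_self, hT]
      · simp only
        rw [add_mul, one_mul]
        omega

theorem bak_time (x : List ℕ × ℕ) (χ : ℕ → Bool) : ∀ (k : ℕ) (u τ : ℕ), k ≤ x.1.length →
    2 * k ≤ u + 1 → x.1.length * MM x.1 ≤ τ →
    ((bak χ k).foldl (step (inst x)) (u, τ)).2 +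
      tr (W x.1) ((bak χ k).foldl (step (inst x)) (u, τ)).1 0 =
      τ + tr (W x.1) u 0 + ∑ j ∈ Finset.range k, (if χ j then 2 * x.1.getD j 0 else 0) := by
  intro k
  induction k with
  | zero =>
    intro u τ _ _ _
    simp [bak]
  | succ k ih =>
    intro u τ hk hu hτ
    rw [bak, Finset.sum_range_succ]
    cases hχ : χ k
    · simp only [Bool.false_eq_true, if_false, List.nil_append, add_zero]
      exact ih u τ (by omega) (by omega) hτ
    · simp only [if_true, List.cons_append, List.nil_append, List.foldl_cons]
      have hP : step (inst x) (u, τ) (2 * k + 1) =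
          (2 * k + 1, τ + tr (W x.1) u (2 * k + 1) + 2 * x.1.getD k 0) := by
        unfold step
        have e1 : release (inst x) (2 * k + 1) = (k + 1) * MM x.1 := by
          unfold release; rw [job_P x (by omega)]
        have e2 : handling (inst x) (2 * k + 1) = 2 * x.1.getD k 0 := by
          unfold handling; rw [job_P x (by omega)]
        rw [inst_travel, e1, e2]
        simp only
        rw [max_eq_left]
        have := Nat.mul_le_mul_right (MM x.1) hk
        omega
      rw [hP, ih (2 * k + 1) _ (by omega) (by omega) (by omega)]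
      have h1 : tr (W x.1) u 0 = tr (W x.1) u (2 * k + 1) + tr (W x.1) (2 * k + 1) 0 := by
        rw [tr_comm _ u 0, tr_comm _ u (2 * k + 1), tr_comm _ (2 * k + 1) 0,
          tr_add (W := W x.1) (Nat.zero_le (2 * k + 1)) (by omega : 2 * k + 1 ≤ u), add_comm]
      rw [h1]
      ring

end

theorem schedulable_of_sublist (x : List ℕ × ℕ) (ht : x.2 < x.1.sum)
    (h : R671.SS.SubsetSum x) : Schedulable (inst x) := by
  obtain ⟨s, hs, hsum⟩ := h
  obtain ⟨χ, hχ⟩ := exists_mask hs
  rw [hsum] at hχ
  refine ⟨sched χ x.1.length, ?_, ?_⟩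
  · rw [inst_length]
    exact sched_perm χ _
  · have hK : (inst x).2.2.2 = KK x.1 x.2 := rfl
    have h0 : (inst x).2.2.1 = 0 := rfl
    unfold completion
    rw [hK, h0]
    unfold sched
    rw [← List.cons_append, List.foldl_append, List.foldl_cons]
    obtain ⟨h1, h2, h3⟩ := out_time x χ x.1.length le_rfl
    obtain ⟨s', hs'⟩ : ∃ s', s' = (0 :: out χ x.1.length).foldl (step (inst x)) (0, 0) :=
      ⟨_, rfl⟩
    rw [← hs'] at h1 h2 h3 ⊢
    have hsum4 : ∑ j ∈ Finset.range x.1.length, (if χ j then 0 else 4 * x.1.getD j 0) +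
        4 * x.2 = 4 * x.1.sum := by
      rw [← hχ, ← sum_getD, Finset.mul_sum, Finset.mul_sum, ← Finset.sum_add_distrib]
      refine Finset.sum_congr rfl fun j _ => ?_
      cases χ j <;> simp
    have hsum2 : ∑ j ∈ Finset.range x.1.length, (if χ j then 2 * x.1.getD j 0 else 0) =
        2 * x.2 := by
      rw [← hχ, Finset.mul_sum]
      refine Finset.sum_congr rfl fun j _ => ?_
      cases χ j <;> simp
    have hTT : TT x.1 χ x.1.length + 1 = rho x.1 x.2 := by
      unfold TT rho
      rw [pos_even x.1 _ le_rfl, sum_getD]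
      have : Dl x.1 = x.1.length + 1 + x.1.sum := rfl
      omega
    have hR : step (inst x) s' (2 * x.1.length + 1) =
        (2 * x.1.length + 1, rho x.1 x.2 + 1) := by
      unfold step
      have e1 : release (inst x) (2 * x.1.length + 1) = rho x.1 x.2 := by
        unfold release; rw [job_R]
      have e2 : handling (inst x) (2 * x.1.length + 1) = 1 := by
        unfold handling; rw [job_R]
      rw [inst_travel, e1, e2, tr_add (W := W x.1) h1 (by omega : _ ≤ 2 * x.1.length + 1),
        tr_succ, W_even x.1 le_rfl, ← add_assoc, h2, hTT, max_self]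
    rw [hR, inst_travel, bak_time x χ x.1.length _ _ le_rfl (by omega) ?_, hsum2, tr_comm,
      pos_last]
    · unfold rho KK
      have : 4 * x.2 ≤ 4 * x.1.sum := by omega
      omega
    · unfold rho
      omega

end Pool.Agent.U28.LV
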